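import Pool.Agent.Q295.PN.StmA

/-!
# Project PN (helper295), job BP: the pointwise inequality (forward)
-/

set_option autoImplicit false

namespace Pool.Agent.Q166.PN

open Finset Pool.Agent.Q295.PN

section bern
variable {ι : Type} [Fintype ι] [DecidableEq ι]

theorem wt_nonneg {p : ℝ} (hp : 0 < p) (hp1 : p < 1) (κ : ι → Bool) : 0 ≤ wt p κ := by
  unfold wt
  apply Finset.prod_nonneg
  intro i _
  split_ifs
  · exact hp.le
  · linarith

theorem Ex_mono {p : ℝ} (hp : 0 < p) (hp1 : p < 1) {f g : (ι → Bool) → ℝ} (h : ∀ κ, f κ ≤ g κ) :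
    Ex p f ≤ Ex p g := by
  unfold Ex
  exact Finset.sum_le_sum fun κ _ => mul_le_mul_of_nonneg_left (h κ) (wt_nonneg hp hp1 κ)

theorem Ex_nonneg {p : ℝ} (hp : 0 < p) (hp1 : p < 1) {f : (ι → Bool) → ℝ} (h : ∀ κ, 0 ≤ f κ) :
    0 ≤ Ex p f := by
  unfold Ex
  exact Finset.sum_nonneg fun κ _ => mul_nonneg (wt_nonneg hp hp1 κ) (h κ)

theorem Ex_add (p : ℝ) (f g : (ι → Bool) → ℝ) :
    Ex p (fun κ => f κ + g κ) = Ex p f + Ex p g := by
  unfold Ex
  rw [← Finset.sum_add_distrib]
  exact Finset.sum_congr rfl fun κ _ => by ring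

theorem Ex_mul (p c : ℝ) (f : (ι → Bool) → ℝ) : Ex p (fun κ => c * f κ) = c * Ex p f := by
  unfold Ex
  rw [Finset.mul_sum]
  exact Finset.sum_congr rfl fun κ _ => by ring

theorem Ex_sum {α : Type} (p : ℝ) (s : Finset α) (f : α → (ι → Bool) → ℝ) :
    Ex p (fun κ => ∑ a ∈ s, f a κ) = ∑ a ∈ s, Ex p (f a) := by
  unfold Ex
  rw [Finset.sum_comm]
  exact Finset.sum_congr rfl fun κ _ => by rw [Finset.mul_sum]

theorem Ex_one (p : ℝ) : Ex (ι := ι) p (fun _ => 1) = 1 := by
  unfold Ex wt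
  simp only [mul_one]
  have h := Finset.prod_univ_sum (fun _ : ι => (univ : Finset Bool))
    (fun _ b => if b = true then p else 1 - p)
  rw [Fintype.piFinset_univ] at h
  rw [← h]
  simp

/-- flip the coordinate `x` -/
def flip (x : ι) (κ : ι → Bool) : ι → Bool := Function.update κ x (!(κ x))

theorem flip_flip (x : ι) (κ : ι → Bool) : flip x (flip x κ) = κ := by
  unfold flip
  simp

theorem wt_flip (p : ℝ) (x : ι) (κ : ι → Bool) :
    wt p (flip x κ) * (if κ x = true then p else 1 - p) =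
      wt p κ * (if κ x = true then 1 - p else p) := by
  unfold wt
  rw [← Finset.mul_prod_erase univ _ (mem_univ x), ← Finset.mul_prod_erase univ (fun i => if κ i = true then p else 1 - p) (mem_univ x)]
  have h : ∏ i ∈ univ.erase x, (if flip x κ i = true then p else 1 - p) =
      ∏ i ∈ univ.erase x, (if κ i = true then p else 1 - p) := by
    refine Finset.prod_congr rfl fun i hi => ?_
    have : flip x κ i = κ i := by
      unfold flip
      rw [Function.update_of_ne (Finset.ne_of_mem_erase hi)]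
    rw [this]
  have h2 : flip x κ x = !(κ x) := by
    unfold flip
    rw [Function.update_self]
  rw [h, h2]
  cases κ x <;> simp <;> ring

/-- the coordinate `x` is independent of a function which does not depend on it -/
theorem Ex_coord {p : ℝ} (x : ι) (f : (ι → Bool) → ℝ)
    (hf : ∀ κ b, f (Function.update κ x b) = f κ) :
    Ex p (fun κ => if κ x = false then f κ else 0) = (1 - p) * Ex p f := by
  have h1 : Ex p f = Ex p (fun κ => if κ x = false then f κ else 0) +
      Ex p (fun κ => if κ x = true then f κ else 0) := by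
    rw [← Ex_add]
    congr 1
    funext κ
    cases κ x <;> simp
  have h2 : (1 - p) * Ex p (fun κ => if κ x = true then f κ else 0) =
      p * Ex p (fun κ => if κ x = false then f κ else 0) := by
    unfold Ex
    rw [Finset.mul_sum, Finset.mul_sum]
    refine Finset.sum_bij' (fun κ _ => flip x κ) (fun κ _ => flip x κ) (fun _ _ => mem_univ _)
      (fun _ _ => mem_univ _) (fun κ _ => flip_flip x κ) (fun κ _ => flip_flip x κ) ?_
    intro κ _
    have e1 : f (flip x κ) = f κ := hf κ _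
    have e2 : flip x κ x = !(κ x) := by
      unfold flip
      rw [Function.update_self]
    have e3 := wt_flip p x κ
    beta_reduce
    rw [e1, e2]
    cases h : κ x
    · simp
    · rw [h] at e3
      simp only [if_true] at e3
      simp only [if_true, Bool.not_true]
      linear_combination (-f κ) * e3
  have h3 : (1 - p) * Ex p f = (1 - p) * Ex p (fun κ => if κ x = false then f κ else 0) +
      p * Ex p (fun κ => if κ x = false then f κ else 0) := by
    rw [h1, mul_add, h2]
  rw [h3]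
  ring

theorem itk_nonneg {k : ι → ι → ℝ} (hk : ∀ x z, 0 ≤ k x z) {f : ι → ℝ} (hf : ∀ z, 0 ≤ f z) (i : ℕ) :
    ∀ x, 0 ≤ itk k f i x := by
  induction i with
  | zero => exact hf
  | succ i ih =>
    intro x
    change 0 ≤ ∑ z, k x z * itk k f i z
    exact Finset.sum_nonneg fun z _ => mul_nonneg (hk x z) (ih z)

theorem itk_mul (k : ι → ι → ℝ) (c : ℝ) (f : ι → ℝ) (i : ℕ) :
    ∀ x, itk k (fun z => c * f z) i x = c * itk k f i x := by
  induction i with
  | zero => intro x; rfl
  | succ i ih =>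
    intro x
    change ∑ z, k x z * itk k (fun z => c * f z) i z = c * ∑ z, k x z * itk k f i z
    rw [Finset.mul_sum]
    exact Finset.sum_congr rfl fun z _ => by rw [ih z]; ring

theorem itk_one_le {k : ι → ι → ℝ} {v : ℝ} (hk : ∀ x z, 0 ≤ k x z) (hv : 0 ≤ v)
    (h : ∀ y, ∑ z, k y z ≤ v) (i : ℕ) : ∀ x, itk k (fun _ => 1) i x ≤ v ^ i := by
  induction i with
  | zero => intro x; exact le_of_eq (by simp [itk])
  | succ i ih =>
    intro x
    change ∑ z, k x z * itk k (fun _ => 1) i z ≤ v ^ (i + 1)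
    calc ∑ z, k x z * itk k (fun _ => 1) i z ≤ ∑ z, k x z * v ^ i :=
          Finset.sum_le_sum fun z _ => mul_le_mul_of_nonneg_left (ih z) (hk x z)
      _ = (∑ z, k x z) * v ^ i := by rw [Finset.sum_mul]
      _ ≤ v * v ^ i := mul_le_mul_of_nonneg_right (h x) (pow_nonneg hv i)
      _ = v ^ (i + 1) := by ring

end bern

section chains
variable {ι : Type} [Fintype ι] [DecidableEq ι] [PartialOrder ι]

theorem psi_nonneg (p c : ℝ) {g : ι → (ι → Bool) → ℝ} (hg : ∀ y κ, 0 ≤ g y κ) (i : ℕ) :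
    ∀ x κ, 0 ≤ psi p c g i x κ := by
  induction i with
  | zero => exact hg
  | succ i ih =>
    intro x κ
    unfold psi
    apply Finset.sum_nonneg
    intro z _
    split_ifs
    · exact ih _ _
    · exact le_refl _

theorem kk_nonneg {p : ℝ} (hp : 0 < p) (c : ℝ) (x z : ι) : 0 ≤ kk p c x z := by
  unfold kk
  split_ifs
  · exact hp.le
  · exact le_refl _

theorem gT_nonneg (p T : ℝ) (y : ι) (κ : ι → Bool) : 0 ≤ gT p T y κ := by
  unfold gT
  apply Finset.sum_nonneg
  intro w _
  split_ifs <;> norm_num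

theorem g1_nonneg (y : ι) (κ : ι → Bool) : 0 ≤ g1 y κ := by
  unfold g1
  split_ifs <;> norm_num

theorem rr_nonneg {p : ℝ} (hp : 0 < p) (hp1 : p < 1) (j : ℕ) (x : ι) : 0 ≤ rr p j x := by
  unfold rr Pr
  apply Ex_nonneg hp hp1
  intro κ
  split_ifs <;> norm_num

theorem Ex_gT (p T : ℝ) (y : ι) : p * Ex p (gT p T y) = ak (kk p T) (rr p 0) y := by
  classical
  have h : gT p T y = fun κ => ∑ w, if y < w ∧ p * (bt y w : ℝ) < T ∧ De w κ = 0 then (1 : ℝ) else 0 := by
    funext κ
    unfold gT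
    exact Finset.sum_congr rfl fun w _ => by congr
  rw [h, Ex_sum, Finset.mul_sum]
  unfold ak
  refine Finset.sum_congr rfl fun w _ => ?_
  unfold kk rr Pr
  by_cases hw : y < w ∧ p * (bt y w : ℝ) < T
  · rw [if_pos hw]
    congr 1
    congr 1
    funext κ
    by_cases hd : De w κ = 0
    · rw [if_pos ⟨hw.1, hw.2, hd⟩, if_pos hd]
    · rw [if_neg (fun h => hd h.2.2), if_neg hd]
  · rw [if_neg hw, zero_mul]
    have : (fun κ : ι → Bool => if y < w ∧ p * (bt y w : ℝ) < T ∧ De w κ = 0 then (1 : ℝ) else 0) =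
        fun κ => 0 * (1 : ℝ) := by
      funext κ
      rw [if_neg (fun h => hw ⟨h.1, h.2.1⟩), zero_mul]
    rw [this, Ex_mul]
    ring

theorem Ex_g1 (p : ℝ) (y : ι) : Ex p (g1 y) = rr p 0 y + rr p 1 y := by
  unfold rr Pr
  rw [← Ex_add]
  congr 1
  funext κ
  unfold g1
  by_cases h0 : De y κ = 0
  · rw [if_pos (by omega), if_pos h0, if_neg (by omega)]
    norm_num
  · by_cases h1 : De y κ = 1
    · rw [if_pos (by omega), if_neg h0, if_pos h1]
      norm_num
    · rw [if_neg (by omega), if_neg h0, if_neg h1]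
      norm_num

open Classical in
theorem point (hMC : S_MC) (hDE : S_DE) (hBD : S_BD) (hCH : S_CH) (hNO : S_NO) (p α T : ℝ) (M j : ℕ) (x : ι)
    (hp : 0 < p) (hα : 0 < α) (hM : 1 ≤ M) (κ : ι → Bool) :
    (if κ x = false then (if De x κ = j + 1 ∧ M ≤ Fw x κ then (1 : ℝ) else 0) else 0) ≤
      (if Gap p T x κ then 1 else 0) +
      1 / α * (if κ x = false then p * ∑ w, (if κ w = false ∧
        De x (Function.update κ w true) = j ∧ Ess M x w (Function.update κ w true) then (1 : ℝ) else 0)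
        else 0) +
      1 / α * (∑ i ∈ range M, p * psi p (2 * α) (gT p T) i x κ) +
      (∑ m ∈ Icc 1 M, psi p (2 * α) g1 m x κ) + psi p (2 * α) (fun _ _ => 1) M x κ := by
  have n1 : (0 : ℝ) ≤ (if Gap p T x κ then 1 else 0) := by split_ifs <;> norm_num
  have n2 : (0 : ℝ) ≤ ∑ w, (if κ w = false ∧
        De x (Function.update κ w true) = j ∧ Ess M x w (Function.update κ w true) then (1 : ℝ) else 0) := by
    apply Finset.sum_nonneg
    intro w _
    split_ifs <;> norm_num
  have n3 : (0 : ℝ) ≤ ∑ i ∈ range M, psi p (2 * α) (gT p T) i x κ :=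
    Finset.sum_nonneg fun i _ => psi_nonneg p _ (gT_nonneg p T) i x κ
  have n4 : (0 : ℝ) ≤ ∑ m ∈ Icc 1 M, psi p (2 * α) g1 m x κ :=
    Finset.sum_nonneg fun i _ => psi_nonneg p _ g1_nonneg i x κ
  have n5 : (0 : ℝ) ≤ psi p (2 * α) (fun _ _ => 1) M x κ :=
    psi_nonneg p _ (fun _ _ => zero_le_one) M x κ
  have hα' : 0 ≤ 1 / α := by positivity
  rw [← Finset.mul_sum]
  by_cases h1 : κ x = false
  · rw [if_pos h1, if_pos h1]
    by_cases h2 : De x κ = j + 1 ∧ M ≤ Fw x κ
    · rw [if_pos h2]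
      have h := hBD hMC hDE hCH hNO ι p α T M j x κ hp hα hM h1 h2.1 h2.2
      have e1 : p / α = 1 / α * p := by ring
      rw [e1] at h
      refine h.trans (le_of_eq ?_)
      ring
    · rw [if_neg h2]
      positivity
  · rw [if_neg h1, if_neg h1]
    positivity

end chains

open Classical in
theorem bp : S_BP := by
  intro hMC hDE hMK hES hPS hGA hBD hCH hNO ι _ _ _ p α T v M j x hp hp1 hα hM hv hrow
  have hq : 0 < 1 - p := by linarith
  have hα' : 0 ≤ 1 / α := by positivity
  have hinv : ∀ κ b, De x (Function.update κ x b) = De x κ ∧ Fw x (Function.update κ x b) = Fw x κ := by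
    intro κ b
    have := (hDE hMC ι x κ).2.1 b
    exact ⟨this.1, this.2.1⟩
  obtain ⟨f, hfd⟩ : ∃ f : (ι → Bool) → ℝ, f = fun κ => if De x κ = j + 1 ∧ M ≤ Fw x κ then (1 : ℝ) else 0 :=
    ⟨_, rfl⟩
  have hf : ∀ κ b, f (Function.update κ x b) = f κ := by
    intro κ b
    rw [hfd]
    beta_reduce
    rw [(hinv κ b).1, (hinv κ b).2]
  have hPr : Pr p (fun κ => De x κ = j + 1 ∧ M ≤ Fw x κ) = Ex p f := by
    unfold Pr
    congr 1
    funext κ
    rw [hfd]
    beta_reduce
    by_cases h : De x κ = j + 1 ∧ M ≤ Fw x κ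
    · rw [if_pos h, if_pos h]
    · rw [if_neg h, if_neg h]
  have h1 : (1 - p) * Pr p (fun κ => De x κ = j + 1 ∧ M ≤ Fw x κ) =
      Ex p (fun κ => if κ x = false then f κ else 0) := by
    rw [hPr, Ex_coord x f hf]
  -- the pointwise bound and its expectation
  have h2 : Ex p (fun κ => if κ x = false then f κ else 0) ≤
      Pr p (Gap p T x) +
      1 / α * Ex p (fun κ => if κ x = false then p * ∑ w, (if κ w = false ∧
        De x (Function.update κ w true) = j ∧ Ess M x w (Function.update κ w true) then (1 : ℝ) else 0)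
        else 0) +
      1 / α * (∑ i ∈ range M, p * Ex p (psi p (2 * α) (gT p T) i x)) +
      (∑ m ∈ Icc 1 M, Ex p (psi p (2 * α) g1 m x)) + Ex p (psi p (2 * α) (fun _ _ => 1) M x) := by
    have h3 := Ex_mono hp hp1 (fun κ => point hMC hDE hBD hCH hNO p α T M j x hp hα hM κ)
    rw [hfd]
    refine h3.trans (le_of_eq ?_)
    rw [Ex_add, Ex_add, Ex_add, Ex_add, Ex_mul, Ex_mul, Ex_sum, Ex_sum]
    congr 1
    congr 1
    congr 1
    congr 1
    exact Finset.sum_congr rfl fun i _ => Ex_mul p p _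
  -- the five terms
  have t1 := hGA ι p T x hp hp1
  have t2 := hMK hMC hDE hES ι p M j x hp hp1
  have t3 : ∀ i ∈ range M, (1 - p) ^ M * (p * Ex p (psi p (2 * α) (gT p T) i x)) ≤
      itk (kk p (2 * α)) (ak (kk p T) (rr p 0)) i x := by
    intro i hi
    have hi' : i ≤ M := (mem_range.1 hi).le
    have a1 := hPS ι p (2 * α) (gT p T) i x hp hp1 (gT_nonneg p T)
    have a2 : p * itk (kk p (2 * α)) (fun y => Ex p (gT p T y)) i x =
        itk (kk p (2 * α)) (ak (kk p T) (rr p 0)) i x := by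
      rw [← itk_mul]
      congr 1
      funext y
      exact Ex_gT p T y
    have a3 : (1 - p) ^ M * (1 / (1 - p)) ^ i ≤ 1 := by
      obtain ⟨d, rfl⟩ := Nat.exists_eq_add_of_le hi'
      have : (1 - p) ^ (i + d) * (1 / (1 - p)) ^ i = (1 - p) ^ d := by
        rw [one_div, inv_pow, pow_add]
        field_simp
      rw [this]
      exact pow_le_one₀ hq.le (by linarith)
    have a4 : 0 ≤ itk (kk p (2 * α)) (ak (kk p T) (rr p 0)) i x := by
      apply itk_nonneg (kk_nonneg hp _)
      intro z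
      unfold ak
      exact Finset.sum_nonneg fun w _ => mul_nonneg (kk_nonneg hp _ _ _) (rr_nonneg hp hp1 _ _)
    calc (1 - p) ^ M * (p * Ex p (psi p (2 * α) (gT p T) i x))
        ≤ (1 - p) ^ M * (p * ((1 / (1 - p)) ^ i * itk (kk p (2 * α)) (fun y => Ex p (gT p T y)) i x)) := by
          gcongr
      _ = ((1 - p) ^ M * (1 / (1 - p)) ^ i) * itk (kk p (2 * α)) (ak (kk p T) (rr p 0)) i x := by
          rw [← a2]
          ring
      _ ≤ 1 * itk (kk p (2 * α)) (ak (kk p T) (rr p 0)) i x := by gcongr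
      _ = _ := one_mul _
  have t4 : ∀ m ∈ Icc 1 M, (1 - p) ^ M * Ex p (psi p (2 * α) g1 m x) ≤
      itk (kk p (2 * α)) (fun z : ι => rr p 0 z + rr p 1 z) m x := by
    intro i hi
    have hi' : i ≤ M := (mem_Icc.1 hi).2
    have a1 := hPS ι p (2 * α) g1 i x hp hp1 g1_nonneg
    have a2 : itk (kk p (2 * α)) (fun y => Ex p (g1 y)) i x =
        itk (kk p (2 * α)) (fun z : ι => rr p 0 z + rr p 1 z) i x := by
      congr 1
      funext y
      exact Ex_g1 p y
    have a3 : (1 - p) ^ M * (1 / (1 - p)) ^ i ≤ 1 := by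
      obtain ⟨d, rfl⟩ := Nat.exists_eq_add_of_le hi'
      have : (1 - p) ^ (i + d) * (1 / (1 - p)) ^ i = (1 - p) ^ d := by
        rw [one_div, inv_pow, pow_add]
        field_simp
      rw [this]
      exact pow_le_one₀ hq.le (by linarith)
    have a4 : 0 ≤ itk (kk p (2 * α)) (fun z : ι => rr p 0 z + rr p 1 z) i x := by
      apply itk_nonneg (kk_nonneg hp _)
      intro z
      exact add_nonneg (rr_nonneg hp hp1 _ _) (rr_nonneg hp hp1 _ _)
    calc (1 - p) ^ M * Ex p (psi p (2 * α) g1 i x)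
        ≤ (1 - p) ^ M * ((1 / (1 - p)) ^ i * itk (kk p (2 * α)) (fun y => Ex p (g1 y)) i x) := by
          gcongr
      _ = ((1 - p) ^ M * (1 / (1 - p)) ^ i) * itk (kk p (2 * α)) (fun z : ι => rr p 0 z + rr p 1 z) i x := by
          rw [← a2]
          ring
      _ ≤ 1 * itk (kk p (2 * α)) (fun z : ι => rr p 0 z + rr p 1 z) i x := by gcongr
      _ = _ := one_mul _
  have t5 : (1 - p) ^ M * Ex p (psi p (2 * α) (fun _ _ => 1) M x) ≤ v ^ M := by
    have a1 := hPS ι p (2 * α) (fun _ _ => 1) M x hp hp1 (fun _ _ => zero_le_one)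
    have a2 : itk (kk p (2 * α)) (fun _ : ι => Ex (ι := ι) p (fun _ => (1 : ℝ))) M x ≤ v ^ M := by
      have e : (fun _ : ι => Ex (ι := ι) p (fun _ => (1 : ℝ))) = fun _ => 1 := by
        funext y
        exact Ex_one p
      rw [e]
      exact itk_one_le (kk_nonneg hp _) hv hrow M x
    have a3 : (1 - p) ^ M * (1 / (1 - p)) ^ M = 1 := by
      rw [← mul_pow, mul_one_div_cancel hq.ne', one_pow]
    calc (1 - p) ^ M * Ex p (psi p (2 * α) (fun _ _ => 1) M x)
        ≤ (1 - p) ^ M * ((1 / (1 - p)) ^ M *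
            itk (kk p (2 * α)) (fun _ : ι => Ex (ι := ι) p (fun _ => (1 : ℝ))) M x) := by
          gcongr
      _ = ((1 - p) ^ M * (1 / (1 - p)) ^ M) *
            itk (kk p (2 * α)) (fun _ : ι => Ex (ι := ι) p (fun _ => (1 : ℝ))) M x := by ring
      _ ≤ v ^ M := by rw [a3, one_mul]; exact a2
  -- assemble
  have hqM : 0 ≤ (1 - p) ^ M := by positivity
  have hqM1 : (1 - p) ^ M ≤ 1 := pow_le_one₀ hq.le (by linarith)
  have b0 : (1 - p) ^ (M + 1) * Pr p (fun κ => De x κ = j + 1 ∧ M ≤ Fw x κ) =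
      (1 - p) ^ M * Ex p (fun κ => if κ x = false then f κ else 0) := by
    rw [← h1, pow_succ]
    ring
  have hr := rr_nonneg hp hp1 j x
  have hG : 0 ≤ Pr p (Gap p T x) := by
    unfold Pr
    apply Ex_nonneg hp hp1
    intro κ
    split_ifs <;> norm_num
  have b1 : (1 - p) ^ M * Pr p (Gap p T x) ≤
      p * Fintype.card ι * (1 + p * Fintype.card ι) * Real.exp (-T) := by
    calc (1 - p) ^ M * Pr p (Gap p T x) ≤ 1 * Pr p (Gap p T x) := by gcongr
      _ ≤ _ := by rw [one_mul]; exact t1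
  have b2 : (1 - p) ^ M * (1 / α * Ex p (fun κ => if κ x = false then p * ∑ w, (if κ w = false ∧
        De x (Function.update κ w true) = j ∧ Ess M x w (Function.update κ w true) then (1 : ℝ) else 0)
        else 0)) ≤ M / α * rr p j x := by
    have c1 : (1 - p) ^ M * (1 - p) ^ 2 ≤ 1 := by
      rw [← pow_add]
      exact pow_le_one₀ hq.le (by linarith)
    calc _ ≤ (1 - p) ^ M * (1 / α * (M * (1 - p) ^ 2 * rr p j x)) := by gcongr
      _ = ((1 - p) ^ M * (1 - p) ^ 2) * (M / α * rr p j x) := by ring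
      _ ≤ 1 * (M / α * rr p j x) := by
          have : 0 ≤ M / α * rr p j x := by positivity
          gcongr
      _ = _ := one_mul _
  have b3 : (1 - p) ^ M * (1 / α * (∑ i ∈ range M, p * Ex p (psi p (2 * α) (gT p T) i x))) ≤
      1 / α * (∑ i ∈ range M, itk (kk p (2 * α)) (ak (kk p T) (rr p 0)) i x) := by
    have e : (1 - p) ^ M * (1 / α * (∑ i ∈ range M, p * Ex p (psi p (2 * α) (gT p T) i x))) =
        1 / α * ∑ i ∈ range M, (1 - p) ^ M * (p * Ex p (psi p (2 * α) (gT p T) i x)) := by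
      rw [Finset.mul_sum, Finset.mul_sum, Finset.mul_sum]
      exact Finset.sum_congr rfl fun i _ => by ring
    rw [e]
    exact mul_le_mul_of_nonneg_left (Finset.sum_le_sum t3) hα'
  have b4 : (1 - p) ^ M * (∑ m ∈ Icc 1 M, Ex p (psi p (2 * α) g1 m x)) ≤
      ∑ m ∈ Icc 1 M, itk (kk p (2 * α)) (fun z : ι => rr p 0 z + rr p 1 z) m x := by
    rw [Finset.mul_sum]
    exact Finset.sum_le_sum t4
  rw [b0]
  have b6 := mul_le_mul_of_nonneg_left h2 hqM
  refine b6.trans ?_
  rw [mul_add, mul_add, mul_add, mul_add]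
  linarith

end Pool.Agent.Q166.PN
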