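import Pool.Agent.Q295.PN.StmA

/-!
# Project PN (helper295), job BW: the pointwise inequality (backward), by duality
-/

set_option autoImplicit false

namespace Pool.Agent.Q166.PN

open Finset Pool.Agent.Q295.PN

/-- the dual order -/
abbrev dl (ι : Type) [PartialOrder ι] : PartialOrder ι where
  le a b := b ≤ a
  lt a b := b < a
  le_refl a := le_refl a
  le_trans _ _ _ h1 h2 := le_trans h2 h1
  lt_iff_le_not_ge _ _ := lt_iff_le_not_ge
  le_antisymm _ _ h1 h2 := le_antisymm h2 h1

section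
variable {ι : Type} [PartialOrder ι]

theorem mc_dl (A : Finset ι) : @mc ι (dl ι) A = mc A := by
  classical
  unfold mc
  congr 1
  apply Finset.filter_congr
  intro C _
  exact ⟨fun h => h.symm, fun h => h.symm⟩

variable [Fintype ι]

theorem Fw_dl (x : ι) (κ : ι → Bool) : @Fw ι _ (dl ι) x κ = Bw x κ := by
  unfold Fw Bw
  rw [mc_dl]
  rfl

theorem Bw_dl (x : ι) (κ : ι → Bool) : @Bw ι _ (dl ι) x κ = Fw x κ := by
  unfold Fw Bw
  rw [mc_dl]
  rfl

theorem De_dl [DecidableEq ι] (x : ι) (κ : ι → Bool) : @De ι _ _ (dl ι) x κ = De x κ := by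
  unfold De
  rw [mc_dl, Fw_dl, Bw_dl, Nat.add_comm]

theorem rr_dl [DecidableEq ι] (p : ℝ) (j : ℕ) : @rr ι _ _ (dl ι) p j = rr p j := by
  funext x
  unfold rr
  simp only [De_dl]

theorem bt_dl (x z : ι) : @bt ι _ (dl ι) x z = bt z x := by
  classical
  unfold bt
  congr 1
  apply Finset.filter_congr
  intro w _
  exact and_comm

theorem kk_dl (p c : ℝ) : @kk ι _ (dl ι) p c = fun a b => kk p c b a := by
  funext x z
  unfold kk
  rw [bt_dl]
  rfl

end

theorem bw : S_BW := by
  intro H ι _ _ _ p α T v M j x hp hp1 hα hM hv hcol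
  have h := @H ι _ _ (dl ι) p α T v M j x hp hp1 hα hM hv (by
    intro y
    simp only [kk_dl]
    exact hcol y)
  simp only [kk_dl, rr_dl, De_dl, Fw_dl] at h
  exact h

end Pool.Agent.Q166.PN
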