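import Pool.Agent.Q295.PN.StmK

/-!
# Project PN (helper295), job K1: fourth central moment of a sum of geometric variables
-/

set_option autoImplicit false

namespace Pool.Agent.Q166.PN.K1

open MeasureTheory ProbabilityTheory Pool.Agent.W533.LP Pool.Agent.Q295.PN Pool.Agent.W990.LP.Mom

/-- The fourth moment. -/
theorem geo_fourth' {Ω : Type} [MeasurableSpace Ω] {μ : Measure Ω} [IsProbabilityMeasure μ] {a : ℝ}
    (ha0 : 0 ≤ a) (haA : a ≤ 1 / 2) {X : Ω → ℕ} (hX : Measurable X)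
    (law : ∀ k, μ.real {ω | X ω = k} = (1 - a) * a ^ k) :
    Integrable (fun ω => (X ω : ℝ) ^ 4) μ ∧ ∫ ω, (X ω : ℝ) ^ 4 ∂μ ≤ 2 * a * M4 (1 / 2) := by
  have ha1 : a < 1 := by linarith
  have hs : Summable (fun k : ℕ => |((k : ℕ) : ℝ) ^ 4| * a ^ k) := by
    have := summ_pow ha0 ha1 4
    refine this.congr fun k => ?_
    rw [abs_of_nonneg (by positivity)]
  obtain ⟨h1, h2⟩ := geo_int ha0 ha1 hX law (fun k => (k : ℝ) ^ 4) hs
  refine ⟨h1, ?_⟩
  have h3 := ((summ_pow (a := 1 / 2) (by norm_num) (by norm_num) 4).hasSum).mul_left (2 * a)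
  refine hasSum_le (fun k => ?_) h2 h3
  rcases Nat.eq_zero_or_pos k with hk | hk
  · subst hk
    norm_num
  · obtain ⟨m, rfl⟩ : ∃ m, k = m + 1 := ⟨k - 1, by omega⟩
    have hp : a ^ m ≤ (1 / 2) ^ m := pow_le_pow_left₀ ha0 haA m
    have hk4 : (0 : ℝ) ≤ ((m + 1 : ℕ) : ℝ) ^ 4 := by positivity
    have h5 : (1 - a) * a ^ (m + 1) ≤ 2 * a * (1 / 2) ^ (m + 1) := by
      have e1 : 0 ≤ a ^ m := pow_nonneg ha0 m
      have e2 : 2 * a * (1 / 2 : ℝ) ^ (m + 1) = a * (1 / 2) ^ m := by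
        rw [pow_succ]
        ring
      have e3 : (1 - a) * a ^ (m + 1) ≤ a * a ^ m := by
        rw [pow_succ]
        nlinarith [mul_nonneg ha0 e1]
      rw [e2]
      exact e3.trans (mul_le_mul_of_nonneg_left hp ha0)
    calc (1 - a) * a ^ (m + 1) * ((m + 1 : ℕ) : ℝ) ^ 4
        ≤ 2 * a * (1 / 2) ^ (m + 1) * ((m + 1 : ℕ) : ℝ) ^ 4 :=
          mul_le_mul_of_nonneg_right h5 hk4
      _ = 2 * a * (((m + 1 : ℕ) : ℝ) ^ 4 * (1 / 2) ^ (m + 1)) := by ring

theorem k1 : Pool.Agent.Q295.PN.S_K1 := by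
  obtain ⟨K4, hK4⟩ : ∃ K4 : ℝ, K4 = 16 * M4 (1 / 2) + 16 := ⟨_, rfl⟩
  have hM : 0 ≤ M4 (1 / 2) := M4_nonneg (by norm_num)
  have hK4p : 0 < K4 := by rw [hK4]; positivity
  refine ⟨K4 + 48, by positivity, ?_⟩
  intro Ω _ μ a n X ha0 haA hX
  have hprob := hX.prob
  have ha1 : a < 1 := by linarith
  have hmeas := hX.meas
  have hlaw : ∀ i k, μ.real {ω | X i ω = k} = (1 - a) * a ^ k := hX.law
  set Y : Fin n → Ω → ℝ := fun i ω => (X i ω : ℝ) - mean a with hY
  have hYm : ∀ i, Measurable (Y i) := fun i => by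
    have : Measurable (fun ω => ((X i ω : ℕ) : ℝ)) :=
      (measurable_from_top (f := fun k : ℕ => (k : ℝ))).comp (hmeas i)
    exact this.sub_const _
  have hYind : iIndepFun Y μ :=
    hX.indep.comp (fun _ (k : ℕ) => (k : ℝ) - mean a) (fun _ => measurable_from_top)
  have hXL : ∀ i, MemLp (fun ω => (X i ω : ℝ)) 4 μ := by
    intro i
    have h5 := (geo_fourth' ha0 haA (hmeas i) (hlaw i)).1
    have hmX : AEStronglyMeasurable (fun ω => ((X i ω : ℕ) : ℝ)) μ :=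
      ((measurable_from_top (f := fun k : ℕ => (k : ℝ))).comp (hmeas i)).aestronglyMeasurable
    refine (integrable_norm_rpow_iff hmX (by norm_num) (by norm_num)).1 ?_
    refine h5.congr (Filter.Eventually.of_forall fun ω => ?_)
    simp only [Real.norm_eq_abs, Nat.abs_cast]
    norm_num
  have hYL : ∀ i, MemLp (Y i) 4 μ := fun i => (hXL i).sub (memLp_const _)
  have hmean : ∀ i, ∫ ω, Y i ω ∂μ = 0 := by
    intro i
    obtain ⟨g1, g2⟩ := geo_first ha0 ha1 (hmeas i) (hlaw i)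
    rw [hY]
    simp only
    rw [integral_sub g1 (integrable_const _), g2]
    simp
  have hsec : ∀ i, ∫ ω, (Y i ω) ^ 2 ∂μ = vari a := by
    intro i
    obtain ⟨g1, g2⟩ := geo_first ha0 ha1 (hmeas i) (hlaw i)
    obtain ⟨k1, k2⟩ := geo_second ha0 ha1 (hmeas i) (hlaw i)
    have e : ∀ ω, (Y i ω) ^ 2 = (X i ω : ℝ) ^ 2 - (2 * mean a) * (X i ω : ℝ) + (mean a) ^ 2 := by
      intro ω; simp only [hY]; ring
    simp only [e]
    have q1 := isub k1 (g1.const_mul (2 * mean a))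
    have q2 := iadd q1.1 (integrable_const (μ := μ) ((mean a) ^ 2))
    rw [q2.2, q1.2, integral_const_mul, g2, k2]
    simp
    ring
  have h1a : 0 < 1 - a := by linarith
  have hVa : vari a ≤ 4 * a := by
    rw [vari, div_le_iff₀ (by positivity)]
    have : 1 / 4 ≤ (1 - a) ^ 2 := by nlinarith
    nlinarith
  have hVa0 : 0 ≤ vari a := by rw [vari]; positivity
  have hMa0 : 0 ≤ mean a := by rw [mean]; positivity
  have hMa : mean a ≤ 2 * a := by
    rw [mean, div_le_iff₀ h1a]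
    nlinarith
  have hfour : ∀ i, ∫ ω, (Y i ω) ^ 4 ∂μ ≤ K4 * a := by
    intro i
    obtain ⟨g1, g2⟩ := geo_fourth' ha0 haA (hmeas i) (hlaw i)
    have hle : ∀ ω, (Y i ω) ^ 4 ≤ 8 * (X i ω : ℝ) ^ 4 + 8 * (mean a) ^ 4 := by
      intro ω
      simp only [hY]
      generalize (X i ω : ℝ) = x
      generalize mean a = m
      nlinarith [sq_nonneg (x ^ 2 - m ^ 2), sq_nonneg (x + m), sq_nonneg ((x + m) ^ 2),
        sq_nonneg (x * (x + m)), sq_nonneg (m * (x + m)), sq_nonneg ((x-m)*(x+m)),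
        sq_nonneg (x^2 + m^2), mul_nonneg (sq_nonneg (x + m)) (sq_nonneg (x - m)),
        mul_nonneg (sq_nonneg (x + m)) (sq_nonneg x), mul_nonneg (sq_nonneg (x + m)) (sq_nonneg m),
        mul_nonneg (sq_nonneg (x + m)) (sq_nonneg (x + m))]
    have hint : Integrable (fun ω => (Y i ω) ^ 4) μ := by
      refine Integrable.mono' ((g1.const_mul 8).add (integrable_const (8 * (mean a) ^ 4)))
        ((hYm i).pow_const 4).aestronglyMeasurable (Filter.Eventually.of_forall fun ω => ?_)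
      rw [Real.norm_eq_abs, abs_of_nonneg (by positivity)]
      exact hle ω
    have hm4 : (mean a) ^ 4 ≤ 2 * a := by
      calc (mean a) ^ 4 ≤ (2 * a) ^ 4 := pow_le_pow_left₀ hMa0 hMa 4
        _ = (2 * a) * (2 * a) ^ 3 := by ring
        _ ≤ (2 * a) * 1 := by
            have : (2 * a) ^ 3 ≤ 1 := pow_le_one₀ (by linarith) (by linarith)
            exact mul_le_mul_of_nonneg_left this (by linarith)
        _ = 2 * a := mul_one _
    calc ∫ ω, (Y i ω) ^ 4 ∂μ ≤ ∫ ω, (8 * (X i ω : ℝ) ^ 4 + 8 * (mean a) ^ 4) ∂μ :=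
          integral_mono hint ((g1.const_mul 8).add (integrable_const _)) hle
      _ = 8 * ∫ ω, (X i ω : ℝ) ^ 4 ∂μ + 8 * (mean a) ^ 4 := by
          rw [integral_add (g1.const_mul 8) (integrable_const _), integral_const_mul]
          simp
      _ ≤ 8 * (2 * a * M4 (1 / 2)) + 8 * (2 * a) := by gcongr
      _ = K4 * a := by
          rw [hK4]
          ring
  obtain ⟨s1, s2, s4⟩ := sum_mom hYm hYind hYL hmean hsec hfour (Finset.univ : Finset (Fin n))
  simp only [Finset.card_univ, Fintype.card_fin] at s1 s2 s4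
  have hrel : ∀ ω, ∑ i, Y i ω = ∑ i, (X i ω : ℝ) - n * mean a := by
    intro ω
    simp [hY]
  simp only [hrel] at s1 s2 s4
  refine s4.trans ?_
  have hn0 : (0 : ℝ) ≤ n := Nat.cast_nonneg n
  have hv2 : (vari a) ^ 2 ≤ (4 * a) ^ 2 := pow_le_pow_left₀ hVa0 hVa 2
  have e2 : 3 * (n : ℝ) ^ 2 * (vari a) ^ 2 ≤ 3 * (n : ℝ) ^ 2 * (4 * a) ^ 2 :=
    mul_le_mul_of_nonneg_left hv2 (by positivity)
  have e3 : 0 ≤ K4 * ((n : ℝ) * a) ^ 2 := by positivity
  have e4 : 0 ≤ 48 * ((n : ℝ) * a) := by positivity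
  nlinarith

end Pool.Agent.Q166.PN.K1
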