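import Pool.Agent.Q295.PN.StmK
import Pool.Agent.W346.LP.SW

/-!
# Project PN (helper295), job K4: exit on the expected side, exponential bound
-/

set_option autoImplicit false

namespace Pool.Agent.Q166.PN.K4

open MeasureTheory ProbabilityTheory Pool.Agent.W533.LP Pool.Agent.Q295.PN Pool.Agent.W346.LP

theorem part1 {c : ℝ} (hc : 0 < c)
    (h3 : ∀ {Ω : Type} [MeasurableSpace Ω] (μ : Measure Ω)
      (q a lam x : ℝ) (I J : ℕ → Ω → ℕ) (W : ℕ → ℕ → Ω → ℕ) (m n : ℕ), 0 < q → q ≤ 1 / 16 →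
      Real.sqrt q / 2 ≤ a → a ≤ 2 * Real.sqrt q → Sys0 μ q a I J W → 0 < lam →
      2 * ((m : ℝ) + n) * Real.sqrt q ≤ lam → 0 ≤ x → x ≤ lam →
      μ.real {ω | MM m n q a + x ≤ (Gr I J W m n ω : ℝ)} ≤ 2 * Real.exp (-c * x ^ 2 / lam) ∧
      μ.real {ω | (Gr I J W m n ω : ℝ) ≤ MM m n q a - x} ≤ 2 * Real.exp (-c * x ^ 2 / lam))
    (hKM : S_KM) {Ω : Type} [MeasurableSpace Ω]
    (μ : Measure Ω) (q θ : ℝ) (I J : ℕ → Ω → ℕ) (W : ℕ → ℕ → Ω → ℕ) (m n : ℕ) (hq : 0 < q)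
    (hq16 : q ≤ 1 / 16) (hθ : 0 < θ) (hθ8 : θ ≤ 1 / 8) (hn : 1 ≤ n)
    (hmn : 16 * |(m : ℝ) - n| ≤ n * θ) (hs : Sys0 μ q (Real.sqrt q * (1 + θ)) I J W) :
    μ.real {ω | Gr I zr W m n ω < Gr zr J W m n ω} ≤
      4 * Real.exp (-(n * Real.sqrt q * θ ^ 4) * (c / 512)) := by
  obtain ⟨r, hr⟩ : ∃ r, r = Real.sqrt q := ⟨_, rfl⟩
  have hr0 : 0 < r := by rw [hr]; exact Real.sqrt_pos.2 hq
  have hrq : r ^ 2 = q := by rw [hr]; exact Real.sq_sqrt hq.le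
  have hr4 : r ≤ 1 / 4 := by nlinarith
  rw [← hr] at hs ⊢
  have hnR : (0 : ℝ) < n := by exact_mod_cast hn
  have t1 : q < r * (1 + θ / 2) := by rw [← hrq]; nlinarith
  have t2 : r * (1 + θ / 2) ≤ r * (1 + θ) := by nlinarith
  have t3 : r * (1 + θ) < 1 := by nlinarith
  obtain ⟨Ω', i1, μ', I₁, J₁, I₂, J₂, W', s1, s2, hle⟩ := ev_couple lCouple lLaw lMax lMono lMeas μ q
    (r * (1 + θ / 2)) (r * (1 + θ)) I J W hq t1 t2 t3 hs m n
  refine hle.trans ?_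
  have := (sys_meas s2).1
  have hgap := hKM.1 r θ m n hr0 hr4 hθ hθ8 hmn
  rw [hrq] at hgap
  obtain ⟨x, hx⟩ : ∃ x : ℝ, x = n * r * θ ^ 2 / 8 := ⟨_, rfl⟩
  obtain ⟨lam, hlam⟩ : ∃ lam : ℝ, lam = 8 * (n * r) := ⟨_, rfl⟩
  have hnr : 0 < (n : ℝ) * r := by positivity
  have hx0 : 0 ≤ x := by rw [hx]; positivity
  have hl0 : 0 < lam := by rw [hlam]; positivity
  have hθ2 : θ ^ 2 ≤ 1 := by nlinarith
  have hxl : x ≤ lam := by
    rw [hx, hlam]
    nlinarith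
  have hm3 : (m : ℝ) ≤ 3 * n := by
    have h1 := le_abs_self ((m : ℝ) - n)
    nlinarith
  have hlam2 : 2 * ((m : ℝ) + n) * Real.sqrt q ≤ lam := by
    rw [← hr, hlam]
    nlinarith
  obtain ⟨u1, -⟩ := h3 μ' q (r * (1 + θ / 2)) lam x I₁ J₁ W' m n hq hq16 (by rw [← hr]; nlinarith)
    (by rw [← hr]; nlinarith) s1 hl0 hlam2 hx0 hxl
  obtain ⟨-, u2⟩ := h3 μ' q (r * (1 + θ)) lam x I₂ J₂ W' m n hq hq16 (by rw [← hr]; nlinarith)
    (by rw [← hr]; nlinarith) s2 hl0 hlam2 hx0 hxl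
  have hexp : -c * x ^ 2 / lam = -(n * r * θ ^ 4) * (c / 512) := by
    rw [hx, hlam]
    field_simp
    ring
  rw [hexp] at u1 u2
  refine (measureReal_mono (s₂ := {ω | MM m n q (r * (1 + θ / 2)) + x ≤ (Gr I₁ J₁ W' m n ω : ℝ)} ∪
      {ω | (Gr I₂ J₂ W' m n ω : ℝ) ≤ MM m n q (r * (1 + θ)) - x}) ?_
      (measure_ne_top _ _)).trans ((measureReal_union_le _ _).trans ?_)
  · intro ω hω
    have hω' : (Gr I₂ J₂ W' m n ω : ℝ) ≤ Gr I₁ J₁ W' m n ω := Nat.cast_le.2 hω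
    by_contra hcon
    have c1 : ¬ (MM m n q (r * (1 + θ / 2)) + x ≤ (Gr I₁ J₁ W' m n ω : ℝ)) :=
      fun h => hcon (Or.inl h)
    have c2 : ¬ ((Gr I₂ J₂ W' m n ω : ℝ) ≤ MM m n q (r * (1 + θ)) - x) :=
      fun h => hcon (Or.inr h)
    push Not at c1 c2
    rw [hx] at c1 c2
    linarith
  · linarith

theorem k4 : Pool.Agent.Q295.PN.S_K4 := by
  intro hK2 hK3 hKM
  obtain ⟨c, hc, h3⟩ := hK3 hK2
  obtain ⟨D, hD⟩ : ∃ D : ℝ, D = max 4 (1024 / c) := ⟨_, rfl⟩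
  have hD4 : 4 ≤ D := by rw [hD]; exact le_max_left _ _
  have hDc : 1024 / c ≤ D := by rw [hD]; exact le_max_right _ _
  have hD0 : 0 < D := by linarith
  have hcD : 1 / D ≤ c / 1024 := by
    rw [div_le_iff₀ hc] at hDc
    rw [div_le_iff₀ hD0]
    nlinarith
  refine ⟨D, by linarith, ?_⟩
  intro Ω _ μ q θ I J W m n hq hq16 hθ hθ8 hm hn hmn hmn'
  have hr0 : 0 < Real.sqrt q := Real.sqrt_pos.2 hq
  have hrq : Real.sqrt q * Real.sqrt q = q := Real.mul_self_sqrt hq.le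
  have hr4 : Real.sqrt q ≤ 1 / 4 := by nlinarith
  have hnR : (0 : ℝ) < n := by exact_mod_cast hn
  have fin : ∀ y : ℝ, 0 ≤ y → n * Real.sqrt q * θ ^ 4 ≤ 2 * y →
      4 * Real.exp (-y * (c / 512)) ≤ D * Real.exp (-(n * Real.sqrt q * θ ^ 4) / D) := by
    intro y hy0 hy
    refine mul_le_mul hD4 (Real.exp_le_exp.2 ?_) (Real.exp_pos _).le hD0.le
    have e1 : -(n * Real.sqrt q * θ ^ 4) / D = -((n * Real.sqrt q * θ ^ 4) * (1 / D)) := by ring
    have hz : 0 ≤ n * Real.sqrt q * θ ^ 4 := by positivity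
    have e2 : (n * Real.sqrt q * θ ^ 4) * (1 / D) ≤ (n * Real.sqrt q * θ ^ 4) * (c / 1024) :=
      mul_le_mul_of_nonneg_left hcD hz
    have e3 : (n * Real.sqrt q * θ ^ 4) * (c / 1024) ≤ (2 * y) * (c / 1024) :=
      mul_le_mul_of_nonneg_right hy (by positivity)
    rw [e1]
    linarith
  constructor
  · intro hs
    refine (part1 hc h3 hKM μ q θ I J W m n hq hq16 hθ hθ8 hn hmn hs).trans (fin _ ?_ ?_)
    · positivity
    · have : 0 ≤ n * Real.sqrt q * θ ^ 4 := by positivity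
      linarith
  · intro hs
    have hs' := (lOps μ q).2.1 (Real.sqrt q / (1 + θ)) I J W hq (by
      rw [lt_div_iff₀ (by linarith)]
      nlinarith) (by
      rw [div_lt_one (by linarith)]
      linarith) hs
    have e0 : q / (Real.sqrt q / (1 + θ)) = Real.sqrt q * (1 + θ) := by
      rw [div_div_eq_mul_div, div_eq_iff hr0.ne']
      linear_combination (-(1 + θ)) * hrq
    rw [e0] at hs'
    have ev : {ω | Gr zr J W m n ω < Gr I zr W m n ω} =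
        {ω | Gr J zr (fun i j => W j i) n m ω < Gr zr I (fun i j => W j i) n m ω} := by
      ext ω
      have a1 : Gr zr J W m n ω = Gr J zr (fun i j => W j i) n m ω := lTransp _ _ _ _ _
      have a2 : Gr I zr W m n ω = Gr zr I (fun i j => W j i) n m ω := lTransp _ _ _ _ _
      show Gr zr J W m n ω < Gr I zr W m n ω ↔
        Gr J zr (fun i j => W j i) n m ω < Gr zr I (fun i j => W j i) n m ω
      rw [a1, a2]
    rw [ev]
    refine (part1 hc h3 hKM μ q θ J I (fun i j => W j i) n m hq hq16 hθ hθ8 hm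
      (by rw [abs_sub_comm]; exact hmn') hs').trans (fin _ ?_ ?_)
    · positivity
    · have h1 : (n : ℝ) ≤ 2 * m := by
        have h2 := neg_abs_le ((m : ℝ) - n)
        have hmR : (0 : ℝ) ≤ m := Nat.cast_nonneg m
        nlinarith
      have h2 : 0 ≤ Real.sqrt q * θ ^ 4 := by positivity
      nlinarith

end Pool.Agent.Q166.PN.K4
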