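import Pool.Agent.Q295.PN.StmK
import Pool.Agent.W85.LP.VB

/-!
# Project PN (helper295), job K6: variance of the stationary last passage time
-/

set_option autoImplicit false

namespace Pool.Agent.Q166.PN.K6

open MeasureTheory ProbabilityTheory Filter Topology Pool.Agent.W533.LP Pool.Agent.Q295.PN

theorem large (D : ℝ) (hD : 1 ≤ D) : ∃ ν₀ : ℝ, 1 ≤ ν₀ ∧ ∀ ν : ℝ, ν₀ ≤ ν →
    ν ^ (-(3 / 10 : ℝ)) ≤ 1 / 10 ∧ 2 * D ≤ ν ^ (55 / 1000 : ℝ) ∧
    24 * (ν * (Real.sqrt D * Real.exp (-(1 / (2 * D)) * ν ^ (1 / 50 : ℝ)))) ≤ 1 := by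
  have h1 : ∀ᶠ ν : ℝ in atTop, ν ^ (-(3 / 10 : ℝ)) ≤ 1 / 10 := by
    have := tendsto_rpow_neg_atTop (show (0 : ℝ) < 3 / 10 by norm_num)
    exact this.eventually_le_const (by norm_num)
  have h2 : ∀ᶠ ν : ℝ in atTop, 2 * D ≤ ν ^ (55 / 1000 : ℝ) :=
    (tendsto_rpow_atTop (show (0 : ℝ) < 55 / 1000 by norm_num)).eventually_ge_atTop (2 * D)
  have h3 : ∀ᶠ ν : ℝ in atTop,
      24 * Real.sqrt D * ((ν ^ (1 / 50 : ℝ)) ^ (50 : ℝ) * Real.exp (-(1 / (2 * D)) * ν ^ (1 / 50 : ℝ))) ≤ 1 := by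
    have e1 := (tendsto_rpow_mul_exp_neg_mul_atTop_nhds_zero 50 (1 / (2 * D)) (by positivity)).comp
      (tendsto_rpow_atTop (show (0 : ℝ) < 1 / 50 by norm_num))
    have e2 := e1.const_mul (24 * Real.sqrt D)
    rw [mul_zero] at e2
    exact e2.eventually_le_const (by norm_num)
  obtain ⟨ν₀, h⟩ := Filter.eventually_atTop.1 (h1.and (h2.and h3))
  refine ⟨max 1 ν₀, le_max_left _ _, fun ν hν => ?_⟩
  obtain ⟨a1, a2, a3⟩ := h ν ((le_max_right _ _).trans hν)
  have hν1 : 1 ≤ ν := (le_max_left _ _).trans hν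
  refine ⟨a1, a2, ?_⟩
  have e : (ν ^ (1 / 50 : ℝ)) ^ (50 : ℝ) = ν := by
    rw [← Real.rpow_mul (by linarith)]
    norm_num
  rw [e] at a3
  refine le_trans (le_of_eq ?_) a3
  ring

theorem k6 : Pool.Agent.Q295.PN.S_K6 := by
  intro hK2 hK3 hKM hK5
  obtain ⟨D, hD, h5⟩ := hK5 hK2 hK3 hKM
  obtain ⟨ν₀, hν₀, hlarge⟩ := large D hD
  refine ⟨100, ν₀, by norm_num, hν₀, ?_⟩
  intro Ω _ μ q a I J W m n hq hq16 hν ha hmn hS
  have hprob := hS.prob
  obtain ⟨r, hr⟩ : ∃ r, r = Real.sqrt q := ⟨_, rfl⟩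
  have hr0 : 0 < r := by rw [hr]; exact Real.sqrt_pos.2 hq
  have hrq : r * r = q := by rw [hr]; exact Real.mul_self_sqrt hq.le
  have hr4 : r ≤ 1 / 4 := by nlinarith
  rw [← hr] at hν ha hmn ⊢
  obtain ⟨ν, hνd⟩ : ∃ ν : ℝ, ν = n * r := ⟨_, rfl⟩
  rw [← hνd] at hν ha hmn ⊢
  obtain ⟨l1, l2, l3⟩ := hlarge ν hν
  have hν1 : 1 ≤ ν := hν₀.trans hν
  have hν0 : 0 < ν := by linarith
  have hn0 : (0 : ℝ) < n := by
    by_contra hcon
    have : (n : ℝ) = 0 := le_antisymm (not_lt.1 hcon) (Nat.cast_nonneg n)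
    rw [this, zero_mul] at hνd
    linarith
  have hn1 : 1 ≤ n := by
    have : 0 < n := by exact_mod_cast hn0
    omega
  -- powers
  obtain ⟨s, hs⟩ : ∃ s, s = ν ^ (7 / 10 : ℝ) := ⟨_, rfl⟩
  obtain ⟨p, hp⟩ : ∃ p, p = ν ^ (755 / 1000 : ℝ) := ⟨_, rfl⟩
  have hs0 : 0 < s := by rw [hs]; exact Real.rpow_pos_of_pos hν0 _
  have hp1 : 1 ≤ p := by rw [hp]; exact Real.one_le_rpow hν1 (by norm_num)
  have hsν : ν * ν ^ (-(3 / 10 : ℝ)) = s := by
    rw [hs]
    nth_rewrite 1 [← Real.rpow_one ν]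
    rw [← Real.rpow_add hν0]
    norm_num
  have hps : p = s * ν ^ (55 / 1000 : ℝ) := by
    rw [hs, hp, ← Real.rpow_add hν0]
    norm_num
  have hsp : 2 * D * s ≤ p := by
    rw [hps]
    nlinarith
  have hsp1 : s ≤ p := by nlinarith
  have hsν' : s ≤ ν / 10 := by
    rw [← hsν]
    nlinarith
  rw [← hs] at hmn
  rw [← hp]
  -- the parameter
  have ha' : |a - r| ≤ r / 10 := by
    refine ha.trans ?_
    nlinarith
  obtain ⟨ha1, ha2⟩ := abs_le.1 ha'
  have hab0 : 0 ≤ |a - r| := abs_nonneg _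
  have hnar : n * |a - r| ≤ s := by
    calc n * |a - r| ≤ n * (r * ν ^ (-(3 / 10 : ℝ))) := mul_le_mul_of_nonneg_left ha hn0.le
      _ = s := by rw [← hsν, hνd]; ring
  have hmn0 : 0 ≤ |(m : ℝ) - n| := abs_nonneg _
  have hmn2 : |(m : ℝ) - n| ≤ n / 10 := by
    have h1 : |(m : ℝ) - n| * r ≤ n / 10 * r := by
      refine hmn.trans (hsν'.trans (le_of_eq ?_))
      rw [hνd]
      ring
    exact le_of_mul_le_mul_right h1 hr0
  obtain ⟨hm1, hm2⟩ := abs_le.1 hmn2
  have hnm : n ≤ 2 * m := by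
    have : (n : ℝ) ≤ ((2 * m : ℕ) : ℝ) := by push_cast; linarith
    exact_mod_cast this
  have hmn3 : m ≤ 2 * n := by
    have : (m : ℝ) ≤ ((2 * n : ℕ) : ℝ) := by push_cast; linarith
    exact_mod_cast this
  have ha0 : 0 < a := by linarith
  have hqa : q < a := by nlinarith
  have ha1' : a < 1 := by linarith
  have hid := (lVarId μ q a I J W hq hqa ha1' hS m n).2.2.1
  rw [hid]
  -- first part
  have hqa2 : q / a ≤ 1 / 2 := by
    rw [div_le_iff₀ ha0]
    nlinarith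
  have hqa0 : 0 ≤ q / a := by positivity
  have k1 := (hKM.2.2.1 (q / a) a hqa0 hqa2 ha0.le (by linarith)).2.1
  obtain ⟨-, -, -, k2, -, k3⟩ := hKM.2.2.1 a a ha0.le (by linarith) ha0.le (by linarith)
  have k4 : |q / a - a| ≤ 3 * |a - r| := by
    have e1 : q / a - a = (r - a) * ((r + a) / a) := by
      rw [← hrq]
      field_simp
      ring
    rw [e1, abs_mul, abs_sub_comm, abs_of_nonneg (by positivity : 0 ≤ (r + a) / a), mul_comm]
    apply mul_le_mul_of_nonneg_right _ hab0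
    rw [div_le_iff₀ ha0]
    linarith
  have first : (n : ℝ) * vari (q / a) - m * vari a ≤ 53 * p := by
    have e1 : (n : ℝ) * vari (q / a) - m * vari a =
        n * (vari (q / a) - vari a) + (n - m) * vari a := by ring
    have e2 : (n : ℝ) * (vari (q / a) - vari a) ≤ n * (48 * |a - r|) := by
      apply mul_le_mul_of_nonneg_left _ hn0.le
      have := le_abs_self (vari (q / a) - vari a)
      linarith
    have hv0 : 0 ≤ vari a := by unfold vari; positivity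
    have e3 : ((n : ℝ) - m) * vari a ≤ 5 * s := by
      have f1 : (n : ℝ) - m ≤ |(m : ℝ) - n| := by rw [abs_sub_comm]; exact le_abs_self _
      calc ((n : ℝ) - m) * vari a ≤ |(m : ℝ) - n| * vari a := mul_le_mul_of_nonneg_right f1 hv0
        _ ≤ |(m : ℝ) - n| * (4 * a) := mul_le_mul_of_nonneg_left k3 hmn0
        _ ≤ |(m : ℝ) - n| * (5 * r) := by
            apply mul_le_mul_of_nonneg_left _ hmn0
            linarith
        _ ≤ 5 * s := by linarith
    rw [e1]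
    linarith
  -- second part
  have hma : 0 ≤ mean a ∧ mean a ≤ 2 * r := by
    unfold mean
    refine ⟨div_nonneg ha0.le (by linarith), ?_⟩
    rw [div_le_iff₀ (by linarith)]
    nlinarith
  have h2a : 2 / (1 - a) ≤ 3 := by
    rw [div_le_iff₀ (by linarith)]
    linarith
  have hu1 : 1 ≤ p / r := by
    rw [le_div_iff₀ hr0]
    linarith
  obtain ⟨E, hE⟩ : ∃ E, E = Real.sqrt D * Real.exp (-(1 / (2 * D)) * ν ^ (1 / 50 : ℝ)) := ⟨_, rfl⟩
  have hE0 : 0 ≤ E := by rw [hE]; positivity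
  have hterm : ∀ i ∈ Finset.range m, ∫ ω in Hs I J W i m n, ((I i ω : ℝ) + 1) ∂μ ≤
      3 * ((if (i : ℝ) + 1 ≤ p / r then (1 : ℝ) else 0) + E) := by
    intro i hi
    have e1 := Pool.Agent.W85.LP.VB.sq_le lMom (1 / 2) (by norm_num) (by linarith) hS i
      (Hs I J W i m n)
    refine e1.trans (mul_le_mul h2a ?_ (Real.sqrt_nonneg _) (by norm_num))
    by_cases hiu : (i : ℝ) + 1 ≤ p / r
    · rw [if_pos hiu]
      have : Real.sqrt (μ.real (Hs I J W i m n)) ≤ 1 := by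
        rw [← Real.sqrt_one]
        exact Real.sqrt_le_sqrt measureReal_le_one
      linarith
    · have hiu' : p < ((i : ℝ) + 1) * r := by
        have := not_le.1 hiu
        rwa [div_lt_iff₀ hr0] at this
      rw [if_neg hiu, zero_add]
      have e3 := h5 μ q a I J W m n i hq hq16 (by rw [← hr]; exact ha') hn1 hnm hmn3
        (Finset.mem_range.1 hi) (by
          rw [← hr]
          have : D * (|(m : ℝ) - n| * r + n * |a - r|) ≤ D * (s + s) :=
            mul_le_mul_of_nonneg_left (add_le_add hmn hnar) (by linarith)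
          linarith) hS
      rw [← hr, ← hνd] at e3
      have e4 : ν ^ (1 / 50 : ℝ) / D ≤ (((i : ℝ) + 1) * r) ^ 4 / (D * ν ^ 3) := by
        have f1 : p ^ 4 = ν ^ (1 / 50 : ℝ) * ν ^ 3 := by
          rw [hp, ← Real.rpow_natCast ν 3, ← Real.rpow_add hν0, ← Real.rpow_natCast (ν ^ (755 / 1000 : ℝ)) 4,
            ← Real.rpow_mul hν0.le]
          norm_num
        have f2 : p ^ 4 ≤ (((i : ℝ) + 1) * r) ^ 4 := pow_le_pow_left₀ (by linarith) hiu'.le 4
        rw [div_le_div_iff₀ (by linarith) (by positivity)]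
        calc ν ^ (1 / 50 : ℝ) * (D * ν ^ 3) = (ν ^ (1 / 50 : ℝ) * ν ^ 3) * D := by ring
          _ = p ^ 4 * D := by rw [f1]
          _ ≤ (((i : ℝ) + 1) * r) ^ 4 * D := mul_le_mul_of_nonneg_right f2 (by linarith)
      have e5 : μ.real (Hs I J W i m n) ≤ E ^ 2 := by
        refine e3.trans ?_
        rw [hE, mul_pow (Real.sqrt D), Real.sq_sqrt (by linarith), ← Real.exp_nat_mul]
        apply mul_le_mul_of_nonneg_left _ (by linarith)
        apply Real.exp_le_exp.2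
        have g1 : ((2 : ℕ) : ℝ) * (-(1 / (2 * D)) * ν ^ (1 / 50 : ℝ)) = -(ν ^ (1 / 50 : ℝ) / D) := by
          push_cast
          field_simp
        rw [g1, neg_div]
        linarith
      calc Real.sqrt (μ.real (Hs I J W i m n)) ≤ Real.sqrt (E ^ 2) := Real.sqrt_le_sqrt e5
        _ = E := Real.sqrt_sq hE0
  have hsum := Finset.sum_le_sum hterm
  rw [← Finset.mul_sum, Finset.sum_add_distrib, Finset.sum_const, Finset.card_range,
    nsmul_eq_mul] at hsum
  have s1 := Pool.Agent.W85.LP.VB.sum_le (p / r) hu1 m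
  have hSnn : 0 ≤ ∑ i ∈ Finset.range m, ∫ ω in Hs I J W i m n, ((I i ω : ℝ) + 1) ∂μ :=
    Finset.sum_nonneg fun i _ => integral_nonneg fun ω => by positivity
  have hmR : (m : ℝ) ≤ 2 * n := by exact_mod_cast hmn3
  have second : 2 * mean a * ∑ i ∈ Finset.range m, ∫ ω in Hs I J W i m n, ((I i ω : ℝ) + 1) ∂μ ≤
      12 * p + 1 := by
    have e1 : ∑ i ∈ Finset.range m, ∫ ω in Hs I J W i m n, ((I i ω : ℝ) + 1) ∂μ ≤
        3 * (p / r + 2 * n * E) := by
      have f1 : (m : ℝ) * E ≤ 2 * n * E := mul_le_mul_of_nonneg_right hmR hE0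
      linarith
    have e2 : 2 * mean a ≤ 4 * r := by linarith [hma.2]
    calc 2 * mean a * ∑ i ∈ Finset.range m, ∫ ω in Hs I J W i m n, ((I i ω : ℝ) + 1) ∂μ
        ≤ 4 * r * (3 * (p / r + 2 * n * E)) := mul_le_mul e2 e1 hSnn (by positivity)
      _ = 12 * p + 24 * ((n * r) * E) := by
          field_simp
          ring
      _ ≤ 12 * p + 1 := by
          rw [← hνd, hE]
          linarith
  linarith

end Pool.Agent.Q166.PN.K6
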